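import Pool.Agent.X180.NC.Bound

/-!
MP_f2e772_gt, Q1 (affirmative): an immersion `f` of a closed 4-manifold into the closed unit ball
with maximal normal curvature `< √(9/5)` induces a metric which is conformal to a metric
satisfying condition (R). The conformal metric is `exp(-(9/4)|f|²) g`.
-/

set_option autoImplicit false

namespace Pool.Agent.Results.MP_f2e772_gt.ConditionR

open scoped ContDiff Manifold InnerProductSpace Topology
open Pool.Agent.X180.NC

/-- The Euclidean space `ℝ^n`. -/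
abbrev E (n : ℕ) : Type := EuclideanSpace ℝ (Fin n)

theorem result {N : ℕ} {X : Type*} [TopologicalSpace X] [CompactSpace X] [T2Space X]
    [ChartedSpace (E 4) X] [IsManifold 𝓘(ℝ, E 4) ∞ X] (f : X → E N)
    (hf : IsSmoothImmersion (E 4) f) (hball : ∀ x, ‖f x‖ ≤ 1)
    (hc : maxNormalCurvature (E 4) f < ENNReal.ofReal (Real.sqrt (9 / 5))) :
    ConformalTo (E 4) f CondR := by
  obtain ⟨hf, himm⟩ := hf
  obtain ⟨c, hc0, hc1, hsff⟩ := sff_bound hf himm hc
  refine ⟨fun x => -(9 / 8) * ‖f x‖ ^ 2, ?_, ?_⟩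
  · have h1 : ContMDiff 𝓘(ℝ, E 4) 𝓘(ℝ, ℝ) ∞ fun x => ‖f x‖ ^ 2 :=
      (contDiff_norm_sq ℝ (E := E N) (n := ∞)).contMDiff.comp hf
    exact (contMDiff_const (c := (-(9 / 8) : ℝ))).mul h1
  · intro φ hφ y hy
    have hG : chartMetric f (fun x => -(9 / 8) * ‖f x‖ ^ 2) φ = Gp (9 / 4) (rep f φ) := by
      funext z u v
      unfold chartMetric Gp
      have : 2 * (-(9 / 8) * ‖f (φ.symm z)‖ ^ 2) = -(9 / 4) * ‖rep f φ z‖ ^ 2 := by
        unfold rep
        ring
      rw [this]
    rw [hG]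
    have hΦ := Phi_le_one (V := E 4) hf himm hball (κ := 5 / 4) (c := c) (by norm_num)
      (by nlinarith) hsff (φ.symm y)
    rw [Phi_rep hf himm _ hφ hy] at hΦ
    exact condR_Gp (rep_ev hf hφ hy) (rep_inj hf himm hφ hy) hc1 (hsff φ hφ y hy) hΦ

end Pool.Agent.Results.MP_f2e772_gt.ConditionR
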